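import Pool.Agent.Helper28.BA.JPcalc
import Pool.Agent.Helper9.BA.CalcC2

/-!
# Project BA, modules B12 and B13: the witness lemma
-/

set_option autoImplicit false

namespace Pool.Agent.Helper94.BA

open Pool.Agent.Helper33.HM

universe u

section WitPos

variable {B : Type u} [CompleteBooleanAlgebra B] {K K' : Set (Finset ℕ → B)} {A : (ℕ → B) → B}

theorem h98_le_iffV {c a b : B} (h1 : c ⊓ a ≤ b) (h2 : c ⊓ b ≤ a) : c ≤ iffV a b := by
  unfold iffV
  exact le_inf (by rw [le_himp_iff]; exact h1) (by rw [le_himp_iff]; exact h2)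

theorem h98_le_eqV {c : B} {x y : ℕ → B} (h1 : ∀ n, c ⊓ x n ≤ y n) (h2 : ∀ n, c ⊓ y n ≤ x n) :
    c ≤ eqV x y :=
  le_iInf fun n => h98_le_iffV (h1 n) (h2 n)

theorem h98_eqV_symm (x y : ℕ → B) : eqV x y ≤ eqV y x := by
  refine iInf_mono fun n => ?_
  unfold iffV
  exact le_of_eq (inf_comm _ _)

theorem h98_eqV_left (x y : ℕ → B) (n : ℕ) : eqV x y ⊓ x n ≤ y n := by
  rw [← le_himp_iff]
  exact (iInf_le _ n).trans inf_le_left

theorem h98_eqV_right (x y : ℕ → B) (n : ℕ) : eqV x y ⊓ y n ≤ x n := by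
  rw [← le_himp_iff]
  exact (iInf_le _ n).trans inf_le_right

theorem h98_memC_sub (x y : ℕ → B) (C : Finset ℕ → B) :
    (⨅ n, x n ⇨ y n) ⊓ memC y C ≤ memC x C := by
  refine le_iInf fun s => ?_
  rw [le_himp_iff]
  have h1 : (⨅ n, x n ⇨ y n) ⊓ PC x s ≤ PC y s := by
    refine le_iInf fun n => le_iInf fun hn => ?_
    have h2 : (⨅ n, x n ⇨ y n) ⊓ x n ≤ y n := by
      rw [← le_himp_iff]
      exact iInf_le _ n
    exact (inf_le_inf_left _ ((iInf_le _ n).trans (iInf_le _ hn))).trans h2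
  have h3 : memC y C ⊓ PC y s ≤ C s := by
    rw [← le_himp_iff]
    exact iInf_le _ s
  exact (le_inf (inf_le_left.trans inf_le_right)
    ((inf_le_inf_right _ inf_le_left).trans h1)).trans h3

theorem h98_memC_ext (x y : ℕ → B) (C : Finset ℕ → B) : eqV x y ⊓ memC x C ≤ memC y C := by
  refine (inf_le_inf_right _ ?_).trans (h98_memC_sub y x C)
  exact iInf_mono fun n => inf_le_right

theorem h98_memC_mono {C D : Finset ℕ → B} (h : C ≤ D) (x : ℕ → B) : memC x C ≤ memC x D :=
  iInf_mono fun s => himp_le_himp_left (h s)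

theorem h98_memC_top {y : ℕ → B} {C : Finset ℕ → B} (h : PC y ≤ C) : memC y C = ⊤ := by
  rw [eq_top_iff]
  refine le_iInf fun s => ?_
  rw [le_himp_iff, top_inf_eq]
  exact h s

theorem h98_finV_sup (x y : ℕ → B) : finV x ⊓ finV y ≤ finV (x ⊔ y) := by
  unfold finV
  rw [iSup_inf_eq]
  refine iSup_le fun m => ?_
  rw [inf_iSup_eq]
  refine iSup_le fun m' => ?_
  refine le_iSup_of_le (max m m') (le_iInf fun n => le_iInf fun hn => ?_)
  rw [Pi.sup_apply, compl_sup]
  exact inf_le_inf ((iInf_le _ n).trans (iInf_le _ ((le_max_left m m').trans hn)))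
    ((iInf_le _ n).trans (iInf_le _ ((le_max_right m m').trans hn)))

theorem h98_finV_bot : finV (⊥ : ℕ → B) = ⊤ := by
  simp [finV]

theorem h98_eqV_inf (x y z : ℕ → B) : eqV x y ≤ eqV (x ⊓ z) (y ⊓ z) := by
  refine h98_le_eqV (fun n => ?_) (fun n => ?_)
  · exact le_inf ((inf_le_inf_left _ inf_le_left).trans (h98_eqV_left x y n))
      (inf_le_right.trans inf_le_right)
  · exact le_inf ((inf_le_inf_left _ inf_le_left).trans (h98_eqV_right x y n))
      (inf_le_right.trans inf_le_right)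

theorem h98_neg {a x y : B} (h : a ⊓ y ≤ x) : a ⊓ xᶜ ≤ yᶜ := by
  rw [le_compl_iff_disjoint_right, disjoint_iff_inf_le]
  calc a ⊓ xᶜ ⊓ y ≤ x ⊓ xᶜ :=
        le_inf ((inf_le_inf_right _ inf_le_left).trans h) (inf_le_left.trans inf_le_right)
    _ = ⊥ := inf_compl_self _

theorem h98_neg_ext (x y : ℕ → B) (C : Finset ℕ → B) :
    eqV x y ⊓ (memC x C)ᶜ ≤ (memC y C)ᶜ :=
  h98_neg ((inf_le_inf_right _ (h98_eqV_symm x y)).trans (h98_memC_ext y x C))

theorem manyV_ext (hA : IsAD A) (Y : ℕ → ℕ → B) (x y : ℕ → B) :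
    eqV x y ⊓ manyV K A Y x ≤ manyV K A Y y := by
  refine le_inf ((inf_le_inf_left _ inf_le_left).trans (hA.ext x y)) ?_
  refine le_iInf fun n => le_iInf fun C => le_iInf fun hC => ?_
  refine le_trans (le_inf (inf_le_left.trans (h98_eqV_inf x y (Y n))) ?_) (h98_neg_ext _ _ C)
  exact inf_le_right.trans (inf_le_right.trans
    ((iInf_le _ n).trans ((iInf_le _ C).trans (iInf_le _ hC))))

/-- The union of the first `j` sets. -/
def h98U (a : ℕ → ℕ → B) (e : ℕ → B) (j : ℕ) : ℕ → B := fun k => ⨆ i : ℕ, ⨆ _ : i < j, e i ⊓ a i k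

theorem h98_jp {Y : ℕ → B} (hP : JP K A Y = ⊤) {a : ℕ → ℕ → B} {e : ℕ → B}
    (hmem : ∀ j, e j ≤ A (a j)) (j : ℕ) : JP K A (Y ⊓ (h98U a e j)ᶜ) = ⊤ := by
  induction j with
  | zero =>
    have : (h98U a e 0) = ⊥ := by
      funext k
      simp [h98U]
    rw [this, compl_bot, inf_top_eq]
    exact hP
  | succ j ih =>
    have hU : ∀ k, h98U a e (j + 1) k = h98U a e j k ⊔ (e j ⊓ a j k) := by
      intro k
      simp only [h98U]
      apply le_antisymm
      · refine iSup_le fun i => iSup_le fun hi => ?_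
        rcases Nat.lt_succ_iff_lt_or_eq.mp hi with h | h
        · exact le_sup_of_le_left (le_iSup_of_le i (le_iSup_of_le h le_rfl))
        · subst h; exact le_sup_right
      · refine sup_le ?_ ?_
        · exact iSup_le fun i => iSup_le fun hi => le_iSup_of_le i (le_iSup_of_le (by omega) le_rfl)
        · exact le_iSup_of_le j (le_iSup_of_le (by omega) le_rfl)
    have h1 : e j ≤ JP K A (Y ⊓ (h98U a e (j + 1))ᶜ) := by
      have h2 : e j ≤ JP K A ((Y ⊓ (h98U a e j)ᶜ) ⊓ (a j)ᶜ) :=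
        le_trans (le_inf (hmem j) (ih ▸ le_top)) (JP_diff K A (a j) _)
      refine le_trans (le_inf ?_ h2) (JP_ext K A _ _)
      refine h98_le_eqV (fun n => ?_) (fun n => ?_)
      · simp only [Pi.inf_apply, Pi.compl_apply, hU, compl_sup, compl_inf]
        refine le_inf (inf_le_right.trans (inf_le_left.trans inf_le_left))
          (le_inf (inf_le_right.trans (inf_le_left.trans inf_le_right)) ?_)
        exact le_sup_of_le_right (inf_le_right.trans inf_le_right)
      · simp only [Pi.inf_apply, Pi.compl_apply, hU, compl_sup, compl_inf]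
        refine le_inf (le_inf (inf_le_right.trans inf_le_left)
          (inf_le_right.trans (inf_le_right.trans inf_le_left))) ?_
        refine (inf_le_inf_left _ (inf_le_right.trans inf_le_right)).trans ?_
        rw [inf_sup_left, inf_compl_self, bot_sup_eq]
        exact inf_le_right
    have h3 : (e j)ᶜ ≤ JP K A (Y ⊓ (h98U a e (j + 1))ᶜ) := by
      have h2 : (e j)ᶜ ≤ JP K A (Y ⊓ (h98U a e j)ᶜ) := ih ▸ le_top
      refine le_trans (le_inf ?_ h2) (JP_ext K A _ _)
      refine h98_le_eqV (fun n => ?_) (fun n => ?_)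
      · simp only [Pi.inf_apply, Pi.compl_apply, hU, compl_sup, compl_inf]
        refine le_inf (inf_le_right.trans inf_le_left)
          (le_inf (inf_le_right.trans inf_le_right) ?_)
        exact le_sup_of_le_left inf_le_left
      · simp only [Pi.inf_apply, Pi.compl_apply, hU, compl_sup, compl_inf]
        exact le_inf (inf_le_right.trans inf_le_left)
          (inf_le_right.trans (inf_le_right.trans inf_le_left))
    rw [eq_top_iff, ← sup_compl_eq_top (x := e j)]
    exact sup_le h1 h3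

/-- N6b. -/
theorem witness_pos (hA : IsAD A) {Y : ℕ → ℕ → B} (hP : ∀ n, JP K A (Y n) = ⊤)
    {a : ℕ → ℕ → B} {e : ℕ → B} (hE : Exhaust (manyV K A Y) a e) (n j : ℕ)
    {C : Finset ℕ → B} (hC : C ∈ K) : memC (Y n ⊓ witY a e ⊓ witA a e j) C = ⊥ := by
  have hanti : ∀ i j, i ≤ j → e j ≤ e i := by
    intro i j hij
    induction hij with
    | refl => exact le_rfl
    | step _ ih => exact (hE.anti _).trans ih
  have hmemA : ∀ j, e j ≤ A (a j) := fun j => (hE.mem j).trans inf_le_left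
  -- the part where all values hold
  have h1 : (⨅ i, e i) ⊓ memC (Y n ⊓ witY a e ⊓ witA a e j) C = ⊥ := by
    rw [← le_bot_iff]
    have h2 : (⨅ i, e i) ≤ eqV (Y n ⊓ witY a e ⊓ witA a e j) (a j ⊓ Y n) := by
      refine h98_le_eqV (fun k => ?_) (fun k => ?_)
      · simp only [Pi.inf_apply, witY, witA]
        refine le_inf ?_ (inf_le_right.trans (inf_le_left.trans inf_le_left))
        refine (inf_le_inf_left _ inf_le_right).trans ?_
        rw [inf_sup_left, inf_compl_self, sup_bot_eq]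
        exact inf_le_right.trans inf_le_right
      · simp only [Pi.inf_apply, witY, witA]
        refine le_inf (le_inf (inf_le_right.trans inf_le_right) (le_sup_of_le_left inf_le_left)) ?_
        exact le_sup_of_le_left (inf_le_inf_left _ inf_le_left)
    calc (⨅ i, e i) ⊓ memC (Y n ⊓ witY a e ⊓ witA a e j) C
        ≤ (memC (a j ⊓ Y n) C)ᶜ ⊓ memC (a j ⊓ Y n) C := by
          refine le_inf ?_ ((inf_le_inf_right _ h2).trans (h98_memC_ext _ _ C))
          refine inf_le_left.trans ((iInf_le _ j).trans ((hE.mem j).trans (inf_le_right.trans ?_)))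
          exact (iInf_le _ n).trans ((iInf_le _ C).trans (iInf_le _ hC))
      _ = ⊥ := compl_inf_self _
  -- the part where some value fails
  have h3 : ∀ j₀, (e j₀)ᶜ ⊓ memC (Y n ⊓ witY a e ⊓ witA a e j) C = ⊥ := by
    intro j₀
    rw [← le_bot_iff]
    have hb : memC (Y n ⊓ (h98U a e j₀)ᶜ) C = ⊥ := by
      have := JP_mem A hC (Y n ⊓ (h98U a e j₀)ᶜ)
      rwa [h98_jp (hP n) hmemA j₀, inf_top_eq] at this
    have hE0 : (e j₀)ᶜ ⊓ (⨅ i, e i) = ⊥ := by
      rw [← le_bot_iff]
      exact (inf_le_inf_left _ (iInf_le _ j₀)).trans (by rw [compl_inf_self])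
    have h2 : (e j₀)ᶜ ≤ eqV (Y n ⊓ witY a e ⊓ witA a e j) (Y n ⊓ (h98U a e j₀)ᶜ) := by
      refine h98_le_eqV (fun k => ?_) (fun k => ?_)
      · simp only [Pi.inf_apply, Pi.compl_apply, witY, witA]
        refine le_inf (inf_le_right.trans (inf_le_left.trans inf_le_left)) ?_
        refine (inf_le_inf_left _ (inf_le_left.trans inf_le_right)).trans ?_
        rw [inf_sup_left, hE0, bot_sup_eq]
        refine inf_le_right.trans (compl_le_compl ?_)
        exact iSup_le fun i => iSup_le fun _ => le_iSup_of_le i le_rfl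
      · simp only [Pi.inf_apply, Pi.compl_apply, witY, witA]
        refine le_inf (le_inf (inf_le_right.trans inf_le_left) ?_) ?_
        · refine le_sup_of_le_right ?_
          refine (inf_le_inf_left _ inf_le_right).trans ?_
          rw [← compl_sup]
          refine compl_le_compl (iSup_le fun i => ?_)
          by_cases hi : i < j₀
          · exact le_sup_of_le_right (le_iSup_of_le i (le_iSup_of_le hi le_rfl))
          · exact le_sup_of_le_left (inf_le_left.trans (hanti _ _ (not_lt.mp hi)))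
        · exact le_sup_of_le_right (inf_le_left.trans (compl_le_compl (iInf_le _ j₀)))
    calc (e j₀)ᶜ ⊓ memC (Y n ⊓ witY a e ⊓ witA a e j) C
        ≤ memC (Y n ⊓ (h98U a e j₀)ᶜ) C := (inf_le_inf_right _ h2).trans (h98_memC_ext _ _ C)
      _ = ⊥ := hb
  have h4 : (⨅ i, e i)ᶜ ⊓ memC (Y n ⊓ witY a e ⊓ witA a e j) C = ⊥ := by
    rw [compl_iInf, iSup_inf_eq]
    simp only [h3, iSup_bot]
  have h5 : memC (Y n ⊓ witY a e ⊓ witA a e j) C =
      ((⨅ i, e i) ⊔ (⨅ i, e i)ᶜ) ⊓ memC (Y n ⊓ witY a e ⊓ witA a e j) C := by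
    rw [sup_compl_eq_top, top_inf_eq]
  rw [h5, inf_sup_right, h1, h4, sup_bot_eq]

/-! ## B13 -/

theorem h98_eqV_trans (x y z : ℕ → B) : eqV x y ⊓ eqV z y ≤ eqV x z := by
  refine h98_le_eqV (fun n => ?_) (fun n => ?_)
  · calc eqV x y ⊓ eqV z y ⊓ x n ≤ eqV z y ⊓ y n :=
        le_inf (inf_le_left.trans inf_le_right)
          ((inf_le_inf_right _ inf_le_left).trans (h98_eqV_left x y n))
      _ ≤ z n := h98_eqV_right z y n
  · calc eqV x y ⊓ eqV z y ⊓ z n ≤ eqV x y ⊓ y n :=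
        le_inf (inf_le_left.trans inf_le_left)
          ((inf_le_inf_right _ inf_le_right).trans (h98_eqV_left z y n))
      _ ≤ x n := h98_eqV_right x y n

/-- The value of: `x` is different from all members of the list. -/
def h98N (x : ℕ → B) (l : List (ℕ → B)) : B := l.foldr (fun b c => (eqV x b)ᶜ ⊓ c) ⊤

/-- Pigeonhole principle. -/
theorem h98_pigeon {a : ℕ → ℕ → B} {E : B}
    (hne : ∀ i j, i ≠ j → E ≤ (eqV (a i) (a j))ᶜ) (l : List (ℕ → B)) :
    ∀ (c : B) (s : Finset ℕ), l.length < s.card → c ≤ E → c ≤ ⨆ j : ℕ, ⨆ _ : j ∈ s, h98N (a j) l := by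
  induction l with
  | nil =>
    intro c s hs _
    obtain ⟨j, hj⟩ := Finset.card_pos.mp (lt_of_le_of_lt (Nat.zero_le _) hs)
    exact le_iSup_of_le j (le_iSup_of_le hj (by simp [h98N]))
  | cons b l ih =>
    intro c s hs hc
    have hcov : c ≤ (⨆ j : ℕ, ⨆ _ : j ∈ s, c ⊓ eqV (a j) b) ⊔
        (c ⊓ ⨅ j : ℕ, ⨅ _ : j ∈ s, (eqV (a j) b)ᶜ) := by
      have h1 : (⨅ j : ℕ, ⨅ _ : j ∈ s, (eqV (a j) b)ᶜ) = (⨆ j : ℕ, ⨆ _ : j ∈ s, eqV (a j) b)ᶜ := by
        simp only [compl_iSup]
      have h2 : (⨆ j : ℕ, ⨆ _ : j ∈ s, c ⊓ eqV (a j) b) = c ⊓ ⨆ j : ℕ, ⨆ _ : j ∈ s, eqV (a j) b := by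
        simp only [inf_iSup_eq]
      rw [h1, h2, ← inf_sup_left, sup_compl_eq_top, inf_top_eq]
    refine hcov.trans (sup_le (iSup_le fun j₀ => iSup_le fun hj₀ => ?_) ?_)
    · have hcard : l.length < (s.erase j₀).card := by
        rw [Finset.card_erase_of_mem hj₀]
        simp only [List.length_cons] at hs
        omega
      have h3 := ih (c ⊓ eqV (a j₀) b) (s.erase j₀) hcard (inf_le_left.trans hc)
      have h4 : c ⊓ eqV (a j₀) b ≤
          (c ⊓ eqV (a j₀) b) ⊓ ⨆ j : ℕ, ⨆ _ : j ∈ s.erase j₀, h98N (a j) l := le_inf le_rfl h3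
      refine h4.trans ?_
      rw [inf_iSup_eq]
      refine iSup_le fun j => ?_
      rw [inf_iSup_eq]
      refine iSup_le fun hj => ?_
      refine le_iSup_of_le j (le_iSup_of_le (Finset.mem_of_mem_erase hj) ?_)
      refine le_inf ?_ inf_le_right
      -- on this part, `a j` is not `b`
      have h5 : (c ⊓ eqV (a j₀) b) ⊓ eqV (a j) b ≤ ⊥ := by
        calc (c ⊓ eqV (a j₀) b) ⊓ eqV (a j) b
            ≤ (eqV (a j₀) (a j))ᶜ ⊓ eqV (a j₀) (a j) :=
              le_inf (inf_le_left.trans (inf_le_left.trans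
                (hc.trans (hne j₀ j (Finset.ne_of_mem_erase hj).symm))))
                ((inf_le_inf_right _ inf_le_right).trans (h98_eqV_trans _ _ _))
          _ = ⊥ := compl_inf_self _
      refine inf_le_left.trans ?_
      rw [le_compl_iff_disjoint_right, disjoint_iff_inf_le]
      exact h5
    · have h3 := ih (c ⊓ ⨅ j : ℕ, ⨅ _ : j ∈ s, (eqV (a j) b)ᶜ) s
        (by simp only [List.length_cons] at hs; omega) (inf_le_left.trans hc)
      refine (le_inf le_rfl h3).trans ?_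
      rw [inf_iSup_eq]
      refine iSup_le fun j => ?_
      rw [inf_iSup_eq]
      refine iSup_le fun hj => ?_
      refine le_iSup_of_le j (le_iSup_of_le hj (le_inf ?_ inf_le_right))
      exact inf_le_left.trans (inf_le_right.trans ((iInf_le _ j).trans (iInf_le _ hj)))

theorem h98_fin (hA : IsAD A) (x : ℕ → B) (l : List (ℕ → B)) :
    A x ⊓ allV A l ⊓ h98N x l ≤ finV (x ⊓ usup l) := by
  induction l with
  | nil =>
    have : x ⊓ usup ([] : List (ℕ → B)) = ⊥ := by simp [usup]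
    rw [this, h98_finV_bot]
    exact le_top
  | cons b l ih =>
    have h1 : x ⊓ usup (b :: l) = (x ⊓ b) ⊔ (x ⊓ usup l) := by
      simp only [usup, List.foldr_cons]
      exact inf_sup_left _ _ _
    have h2 : allV A (b :: l) = A b ⊓ allV A l := rfl
    have h3 : h98N x (b :: l) = (eqV x b)ᶜ ⊓ h98N x l := rfl
    rw [h1, h2, h3]
    refine le_trans (le_inf ?_ ?_) (h98_finV_sup _ _)
    · calc A x ⊓ (A b ⊓ allV A l) ⊓ ((eqV x b)ᶜ ⊓ h98N x l)
          ≤ (A x ⊓ A b) ⊓ (eqV x b)ᶜ :=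
            le_inf (le_inf (inf_le_left.trans inf_le_left)
              (inf_le_left.trans (inf_le_right.trans inf_le_left)))
              (inf_le_right.trans inf_le_left)
        _ ≤ (eqV x b ⊔ finV (x ⊓ b)) ⊓ (eqV x b)ᶜ := inf_le_inf_right _ (hA.ad x b)
        _ ≤ finV (x ⊓ b) := by
            rw [inf_sup_right, inf_compl_self, bot_sup_eq]
            exact inf_le_left
    · refine le_trans (le_inf (le_inf (inf_le_left.trans inf_le_left)
        (inf_le_left.trans (inf_le_right.trans inf_le_right)))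
        (inf_le_right.trans inf_le_right)) ih

/-- N6c. (Type 1) -/
theorem witness_inf (hK' : SmallIdeal K') (hA : IsAD A) {Y : ℕ → ℕ → B}
    {a : ℕ → ℕ → B} {e : ℕ → B} (hE : Exhaust (manyV K A Y) a e) (Z : ℕ → B)
    (h2 : ∀ j, ∀ C ∈ K', memC (Z ⊓ witA a e j) C = ⊥) : (⨅ i, e i) ≤ JP K' A Z := by
  refine le_iInf fun C => le_iInf fun hC => le_iInf fun l => ?_
  rw [le_himp_iff, le_compl_iff_disjoint_right, disjoint_iff_inf_le]
  set E : B := ⨅ i, e i with hEdef
  have hne : ∀ i j, i ≠ j → E ≤ (eqV (a i) (a j))ᶜ := by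
    intro i j hij
    rcases lt_or_gt_of_ne hij with h | h
    · refine (iInf_le _ j).trans ((hE.ne i j h).trans (compl_le_compl (h98_eqV_symm _ _)))
    · exact (iInf_le _ i).trans (hE.ne j i h)
  have hp := h98_pigeon hne l E (Finset.range (l.length + 1)) (by simp) le_rfl
  have h3 : E ⊓ allV A l ⊓ memC (Z ⊓ (usup l)ᶜ) C ≤
      (E ⊓ allV A l ⊓ memC (Z ⊓ (usup l)ᶜ) C) ⊓
        ⨆ j : ℕ, ⨆ _ : j ∈ Finset.range (l.length + 1), h98N (a j) l :=
    le_inf le_rfl (inf_le_left.trans (inf_le_left.trans hp))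
  refine h3.trans ?_
  rw [inf_iSup_eq]
  refine iSup_le fun j => ?_
  rw [inf_iSup_eq]
  refine iSup_le fun _ => ?_
  -- the intersection of `a j` with the union of `l` is finite
  have hfin : (E ⊓ allV A l ⊓ memC (Z ⊓ (usup l)ᶜ) C) ⊓ h98N (a j) l ≤ finV (a j ⊓ usup l) := by
    refine le_trans (le_inf (le_inf ?_ ?_) inf_le_right) (h98_fin hA (a j) l)
    · exact inf_le_left.trans (inf_le_left.trans (inf_le_left.trans
        ((iInf_le _ j).trans ((hE.mem j).trans inf_le_left))))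
    · exact inf_le_left.trans (inf_le_left.trans inf_le_right)
  refine (le_inf inf_le_left hfin).trans ?_
  unfold finV
  rw [inf_iSup_eq]
  refine iSup_le fun m => ?_
  obtain ⟨D, hD, hmD⟩ := hK'.fin m
  obtain ⟨C', hC', hCD⟩ := hK'.dir C hC D hD
  set F : B := ⨅ n : ℕ, ⨅ _ : m ≤ n, ((a j ⊓ usup l) n)ᶜ with hF
  have h4 : (E ⊓ allV A l ⊓ memC (Z ⊓ (usup l)ᶜ) C) ⊓ F ≤ memC (Z ⊓ a j) C' := by
    have h5 : memC (Z ⊓ (usup l)ᶜ) C ≤ memC ((Z ⊓ (usup l)ᶜ) ⊔ finN m) C' := by
      have h6 : memC (finN m) D = ⊤ := h98_memC_top hmD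
      calc memC (Z ⊓ (usup l)ᶜ) C = memC (Z ⊓ (usup l)ᶜ) C ⊓ memC (finN m) D := by
            rw [h6, inf_top_eq]
        _ ≤ memC ((Z ⊓ (usup l)ᶜ) ⊔ finN m) (joinC C D) :=
            memC_joinC (hK'.cf C hC) (hK'.cf D hD) _ _
        _ ≤ _ := h98_memC_mono hCD _
    have h7 : F ≤ ⨅ n, (Z ⊓ a j) n ⇨ ((Z ⊓ (usup l)ᶜ) ⊔ finN m) n := by
      refine le_iInf fun n => ?_
      rw [le_himp_iff]
      simp only [Pi.inf_apply, Pi.sup_apply, Pi.compl_apply]
      by_cases hn : m ≤ n
      · have h8 : F ≤ (a j n)ᶜ ⊔ (usup l n)ᶜ := by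
          have := (iInf_le (fun n => ⨅ _ : m ≤ n, ((a j ⊓ usup l) n)ᶜ) n).trans (iInf_le _ hn)
          rw [Pi.inf_apply, compl_inf] at this
          exact this
        refine le_sup_of_le_left (le_inf (inf_le_right.trans inf_le_left) ?_)
        calc F ⊓ (Z n ⊓ a j n) ≤ ((a j n)ᶜ ⊔ (usup l n)ᶜ) ⊓ a j n :=
              inf_le_inf h8 inf_le_right
          _ ≤ (usup l n)ᶜ := by
              rw [inf_sup_right, compl_inf_self, bot_sup_eq]
              exact inf_le_left
      · refine le_sup_of_le_right ?_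
        simp only [finN, if_pos (not_le.mp hn)]
        exact le_top
    refine le_trans (le_inf (inf_le_right.trans h7) ?_) (h98_memC_sub _ _ C')
    exact inf_le_left.trans (inf_le_right.trans h5)
  have h9 : E ⊓ memC (Z ⊓ a j) C' ≤ ⊥ := by
    have h10 : E ≤ eqV (Z ⊓ a j) (Z ⊓ witA a e j) := by
      refine h98_le_eqV (fun k => ?_) (fun k => ?_)
      · simp only [Pi.inf_apply, witA]
        refine le_inf (inf_le_right.trans inf_le_left) (le_sup_of_le_left ?_)
        exact inf_le_inf_left _ inf_le_right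
      · simp only [Pi.inf_apply, witA]
        refine le_inf (inf_le_right.trans inf_le_left) ?_
        refine (inf_le_inf_left _ inf_le_right).trans ?_
        rw [inf_sup_left, ← hEdef, inf_compl_self, sup_bot_eq]
        exact inf_le_right.trans inf_le_right
    calc E ⊓ memC (Z ⊓ a j) C' ≤ memC (Z ⊓ witA a e j) C' :=
          (inf_le_inf_right _ h10).trans (h98_memC_ext _ _ C')
      _ = ⊥ := h2 j C' hC'
  exact (le_inf (inf_le_left.trans (inf_le_left.trans inf_le_left)) h4).trans h9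

end WitPos

end Pool.Agent.Helper94.BA
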